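import Pool.Agent.P.MP_01fe58_nt.HLower

set_option autoImplicit false

namespace Pool.Agent.Results.MP_01fe58_nt.EqualLowerDensity
open Pool.Agent.P.MP_01fe58_nt

/-- The set of n for which the least prime congruent to 1 mod n is also the least m with n dividing
the totient of m has positive lower density. -/
theorem result :
    ∃ δ : ℝ, 0 < δ ∧ ∃ N₀ : ℕ, ∀ N : ℕ, N₀ ≤ N →
      δ * N ≤ ({n : ℕ | 1 ≤ n ∧ n ≤ N ∧ ∃ p : ℕ,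
        IsLeast {q : ℕ | q.Prime ∧ q ≡ 1 [MOD n]} p ∧
        IsLeast {m : ℕ | 0 < m ∧ n ∣ Nat.totient m} p}.ncard : ℝ) := by
  classical
  obtain ⟨δ, hδ, i₁, h⟩ := many_eqv_all
  refine ⟨δ / 4, by positivity, 2 ^ (i₁ + 1), fun N hN => ?_⟩
  have hN0 : N ≠ 0 := by have := Nat.two_pow_pos (i₁ + 1); omega
  have h1 : i₁ + 1 ≤ Nat.log 2 N := Nat.le_log_of_pow_le one_lt_two hN
  obtain ⟨i, hi⟩ : ∃ i, Nat.log 2 N = i + 1 := ⟨Nat.log 2 N - 1, by omega⟩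
  have h2 : 2 ^ (i + 1) ≤ N := hi ▸ Nat.pow_log_le_self 2 hN0
  have h3 : N < 2 ^ (i + 1 + 1) := hi ▸ Nat.lt_pow_succ_log_self one_lt_two N
  have e : δ / 4 * N ≤ δ * 2 ^ i := by
    have : (N : ℝ) ≤ 2 ^ (i + 1 + 1) := by exact_mod_cast h3.le
    calc _ ≤ δ / 4 * 2 ^ (i + 1 + 1) := by gcongr
      _ = _ := by ring
  refine e.trans ((h i (by omega)).trans ?_)
  rw [← Set.ncard_coe_finset]
  refine Nat.cast_le.2 (Set.ncard_le_ncard (fun n hn => ?_)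
    ((Set.finite_Iic N).subset (fun n hn => hn.2.1)))
  obtain ⟨h1, s, hp, hmin⟩ := Finset.mem_filter.1 (Finset.mem_coe.1 hn)
  obtain ⟨h4, h5⟩ := Finset.mem_Ioc.1 h1
  refine ⟨h4, h5.trans h2, s * n + 1, ⟨⟨hp, by simp [Nat.ModEq]⟩, fun q hq => ?_⟩,
    ⟨Nat.succ_pos _, by rw [Nat.totient_prime hp]; simp⟩, fun m hm => hmin m hm.1 hm.2⟩
  refine hmin q hq.1.pos ?_
  rw [Nat.totient_prime hq.1]
  exact (Nat.modEq_iff_dvd' hq.1.one_le).1 hq.2.symm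

/-- The earlier form: positive upper density. -/
theorem upper_density :
    ∃ δ : ℝ, 0 < δ ∧ ∀ N₀ : ℕ, ∃ N : ℕ, N₀ ≤ N ∧
      δ * N ≤ ({n : ℕ | 1 ≤ n ∧ n ≤ N ∧ ∃ p : ℕ,
        IsLeast {q : ℕ | q.Prime ∧ q ≡ 1 [MOD n]} p ∧
        IsLeast {m : ℕ | 0 < m ∧ n ∣ Nat.totient m} p}.ncard : ℝ) := by
  obtain ⟨δ, hδ, N₁, h⟩ := result
  exact ⟨δ, hδ, fun N₀ => ⟨max N₀ N₁, le_max_left _ _, h _ (le_max_right _ _)⟩⟩

end Pool.Agent.Results.MP_01fe58_nt.EqualLowerDensity
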