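import Pool.Agent.P.MP_01fe58_nt.HCount

set_option autoImplicit false

namespace Pool.Agent.Results.MP_01fe58_nt.LargeRatio
open Finset Filter Pool.Agent.P.MP_01fe58_nt.H

/-- At least δ N / C integers n up to N have least prime congruent to 1 mod n above C times the least
m with n dividing the totient of m, uniformly for C up to δ log N. -/
theorem result :
    ∃ δ : ℝ, 0 < δ ∧ ∃ N₀ : ℕ, ∀ N : ℕ, N₀ ≤ N → ∀ C : ℝ, 1 ≤ C → C ≤ δ * Real.log N →
      δ / C * N ≤ ({n : ℕ | 1 ≤ n ∧ n ≤ N ∧ ∃ p m : ℕ,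
        IsLeast {q : ℕ | q.Prime ∧ q ≡ 1 [MOD n]} p ∧
        IsLeast {k : ℕ | 0 < k ∧ n ∣ Nat.totient k} m ∧ C * m < p}.ncard : ℝ) := by
  classical
  obtain ⟨δ, hδ, h⟩ := many_only_unif
  obtain ⟨x₀, hx₀⟩ := eventually_atTop.1 h
  refine ⟨δ / 16, by positivity, 4 * (x₀ + 8), fun N hN C hC hCN => ?_⟩
  set M := ⌈C⌉₊ with hM
  have hM1 : C ≤ M := Nat.le_ceil C
  have hM2 : (M : ℝ) ≤ 2 * C := by
    have := Nat.ceil_lt_add_one (show 0 ≤ C by linarith)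
    linarith
  have hM3 : 1 ≤ M := by exact_mod_cast hC.trans hM1
  set x := N / 4 with hx
  have hlog : Real.log N ≤ 2 * Real.log x := by
    have a1 : N ≤ x ^ 2 := by
      have : 8 * x ≤ x * x := Nat.mul_le_mul_right _ (by omega)
      rw [sq]; omega
    calc _ ≤ Real.log ((x : ℝ) ^ 2) :=
          Real.log_le_log (by exact_mod_cast (by omega : 0 < N)) (by exact_mod_cast a1)
      _ = _ := by rw [Real.log_pow]; norm_num
  obtain ⟨k, -, hk⟩ := hx₀ x (by omega) M hM3 (by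
    have := Real.log_natCast_nonneg x
    nlinarith)
  have h1 : δ / 16 / C * N ≤ δ / M * x := by
    have a1 : (N : ℝ) ≤ 8 * x := by exact_mod_cast (by omega : N ≤ 8 * x)
    have a2 : (0 : ℝ) < M := by linarith
    calc _ ≤ δ / 16 / C * (8 * x) := by gcongr
      _ = δ / (2 * C) * x := by field_simp; ring
      _ ≤ _ := by gcongr
  refine h1.trans (hk.trans ?_)
  rw [← card_image_of_injective _ (mul_right_injective₀ (two_ne_zero (α := ℕ))),
    ← Set.ncard_coe_finset]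
  refine Nat.cast_le.2 (Set.ncard_le_ncard (fun n hn => ?_)
    ((Set.finite_Iic N).subset (fun n hn => hn.2.1)))
  obtain ⟨c, hc, rfl⟩ := mem_image.1 (mem_coe.1 hn)
  obtain ⟨h2, j, hj, hq, hno⟩ := mem_filter.1 hc
  obtain ⟨h3, h4⟩ := mem_Ioc.1 h2
  have hj' := mem_range.1 hj
  have hP : {q : ℕ | q.Prime ∧ q ≡ 1 [MOD 2 * c]}.Nonempty := by
    obtain ⟨q, h5, -, h6⟩ := Nat.exists_prime_gt_modEq_one 0 (show 2 * c ≠ 0 by omega)
    exact ⟨q, h5, h6⟩
  have hm : 3 * ((2 * j + 1) * c + 1) ∈ {k : ℕ | 0 < k ∧ 2 * c ∣ Nat.totient k} := by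
    refine ⟨by omega, ?_⟩
    have hco : Nat.Coprime 3 ((2 * j + 1) * c + 1) :=
      (Nat.coprime_primes Nat.prime_three hq).2 (by
        have : c ≤ (2 * j + 1) * c := Nat.le_mul_of_pos_left _ (by omega)
        omega)
    rw [Nat.totient_mul hco, Nat.totient_prime Nat.prime_three, Nat.totient_prime hq]
    exact ⟨2 * j + 1, by simp; ring⟩
  refine ⟨by omega, by omega, _, _, ⟨Nat.sInf_mem hP, fun q hq => Nat.sInf_le hq⟩,
    ⟨Nat.sInf_mem ⟨_, hm⟩, fun q hq => Nat.sInf_le hq⟩, ?_⟩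
  have h5 := Nat.sInf_le hm
  obtain ⟨h6, h7⟩ := Nat.sInf_mem hP
  generalize sInf {q : ℕ | q.Prime ∧ q ≡ 1 [MOD 2 * c]} = p at *
  generalize sInf {k : ℕ | 0 < k ∧ 2 * c ∣ Nat.totient k} = m at *
  obtain ⟨t, ht⟩ := (Nat.modEq_iff_dvd' h6.one_le).1 h7.symm
  have e : p = 2 * t * c + 1 := by
    have := h6.one_le
    have : 2 * c * t = 2 * t * c := by ring
    omega
  have h8 : 0 < t := by
    rcases Nat.eq_zero_or_pos t with h | h
    · rw [h] at e; simp at e; exact absurd (e ▸ h6) Nat.not_prime_one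
    · exact h
  have h9 : 6 * M * k < 2 * t := by
    by_contra h10
    exact hno (2 * t) (mem_erase.2 ⟨by omega, mem_Ioc.2 ⟨by omega, not_lt.1 h10⟩⟩) (e ▸ h6)
  have h10 : m ≤ 6 * k * c := by
    have : (2 * j + 2) * c ≤ 2 * k * c := Nat.mul_le_mul_right _ (by omega)
    nlinarith
  have h11 : M * m < p := by
    calc M * m ≤ M * (6 * k * c) := Nat.mul_le_mul_left _ h10
      _ = 6 * M * k * c := by ring
      _ ≤ 2 * t * c := Nat.mul_le_mul_right _ h9.le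
      _ < p := by omega
  calc C * m ≤ M * m := by gcongr
    _ < p := by exact_mod_cast h11

/-- The case of a fixed ratio. -/
theorem fixed_ratio :
    ∃ δ : ℝ, 0 < δ ∧ ∀ C : ℝ, 1 ≤ C → ∃ N₀ : ℕ, ∀ N : ℕ, N₀ ≤ N →
      δ / C * N ≤ ({n : ℕ | 1 ≤ n ∧ n ≤ N ∧ ∃ p m : ℕ,
        IsLeast {q : ℕ | q.Prime ∧ q ≡ 1 [MOD n]} p ∧
        IsLeast {k : ℕ | 0 < k ∧ n ∣ Nat.totient k} m ∧ C * m < p}.ncard : ℝ) := by
  obtain ⟨δ, hδ, N₁, h⟩ := result
  refine ⟨δ, hδ, fun C hC => ?_⟩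
  obtain ⟨N₂, h2⟩ := eventually_atTop.1 ((Real.tendsto_log_atTop.comp
    (tendsto_natCast_atTop_atTop (R := ℝ))).eventually_ge_atTop (C / δ))
  exact ⟨max N₁ N₂, fun N hN => h N (le_of_max_le_left hN) C hC
    ((div_le_iff₀' hδ).1 (h2 N (le_of_max_le_right hN)))⟩

end Pool.Agent.Results.MP_01fe58_nt.LargeRatio
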